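import Mathlib
import Pool.Agent.N969.P17G.Defs2
import Pool.Agent.N877.P21.Defs

/-!
# Project RQ: crossing numbers of the closed geodesics of a real quadratic discriminant

`D > 0` is a fundamental discriminant (not a square).  The forms `[a, b, c]` of discriminant `D` and
level `N` (`N ∣ a`) are weighted with the genus character of a unitary divisor `d` of `D` and with
an orientation (a function of `b` modulo `N`); `J` counts those which separate `∞` and `x / M`.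
The number of forms of the principal genus is an integer, which gives a congruence between the
`J` with `sgd D d = 1` (central values of twists) and those with `sgd D d = -1` (class numbers).

All statements are verified numerically (level `21`: `D < 12000`; level `15`: `D < 3000`; the
statements with an auxiliary prime `l` for `D < 400`).
-/

set_option autoImplicit false

namespace Pool.Agent.N969.RQ

open Finset
open Pool.Agent.Z700 (hh fac)
open Pool.Agent.N969.P15 (V3 tw ep2 Qc Qe un Ev c2)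
open Pool.Agent.N969.P17G (gen starP)

noncomputable section

/-! ### discriminants, genus characters, orientations, crossing numbers -/

/-- positive fundamental discriminants -/
def Fd (D : ℕ) : Prop := 1 < D ∧ ((Squarefree D ∧ D % 4 = 1) ∨
  ∃ M : ℕ, D = 4 * M ∧ Squarefree M ∧ (M % 4 = 2 ∨ M % 4 = 3))

/-- unitary divisors -/
def Un (D d : ℕ) : Prop := d ∣ D ∧ Nat.Coprime d (D / d)

/-- the unitary divisors -/
def ud (D : ℕ) : Finset ℕ := D.divisors.filter fun d => Nat.Coprime d (D / d)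

/-- the sign of the product of the prime discriminants of `D` at the primes dividing `d`: the
discriminant is `sgd D d * d` -/
def sgd (D d : ℕ) : ℤ := ∏ p ∈ d.primeFactors, Int.sign (starP D p)

/-- the genus character of a form of discriminant `D` (or `D m²`), `d` a unitary divisor of `D` -/
def ps (D d : ℕ) (q : ℤ × ℤ × ℤ) : ℤ :=
  (if 2 ∣ d then (if (2 : ℤ) ∣ q.1 then c2 (3 * D) q.2.2 else c2 (3 * D) q.1) else 1) *
    ∏ p ∈ d.primeFactors.erase 2, gen p q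

/-- orientation at `3` -/
def o3 (b : ℤ) : ℤ := jacobiSym b 3

/-- orientation at `7` -/
def o7 (b : ℤ) : ℤ := jacobiSym b 7

/-- orientation at `5` (`1, 2` versus `3, 4`) -/
def o5 (b : ℤ) : ℤ := if b % 5 = 0 then 0 else if b % 5 = 1 ∨ b % 5 = 2 then 1 else -1

open Classical in
/-- the number of forms of discriminant `D` and level `N` changing sign between `∞` and `x / M`,
weighted with the function `w` of the middle coefficient and the genus character of `d` -/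
def J (N : ℕ) (w : ℤ → ℤ) (D d : ℕ) (x M : ℤ) : ℤ := ∑ᶠ q : ℤ × ℤ × ℤ,
  if q.2.1 ^ 2 - 4 * q.1 * q.2.2 = (D : ℤ) ∧ (N : ℤ) ∣ q.1 ∧ 0 < q.1 ∧
    q.1 * x ^ 2 + q.2.1 * x * M + q.2.2 * M ^ 2 < 0 then w q.2.1 * ps D d q else 0

/-- the trivial orientation -/
def one (_ : ℤ) : ℤ := 1

/-- SW: the genus characters of `d` and of `D / d` agree -/
def S_SW : Prop := ∀ (N : ℕ) (w : ℤ → ℤ) (D d : ℕ) (x M : ℤ), Fd D → Un D d →
  J N w D (D / d) x M = J N w D d x M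

/-! ### the classes -/

/-- level `21`: `3` split, `7` split -/
def R21 (D : ℕ) : Prop := Fd D ∧ D % 3 = 1 ∧ jacobiSym D 7 = 1

/-- level `21`: `3` split, `7 ∣ D` -/
def R21r (D : ℕ) : Prop := Fd D ∧ D % 3 = 1 ∧ 7 ∣ D

/-- level `15`: `3` split, `5` split -/
def R15 (D : ℕ) : Prop := Fd D ∧ D % 3 = 1 ∧ jacobiSym D 5 = 1

/-- level `15`: `3 ∣ D`, `5` split -/
def R15r (D : ℕ) : Prop := Fd D ∧ 3 ∣ D ∧ jacobiSym D 5 = 1

/-! ### INT: integrality (the number of forms of the principal genus) -/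

def S_INT21 : Prop := ∀ D : ℕ, R21 D → (2 : ℤ) ^ (D.primeFactors.card + 1) ∣
  ∑ d ∈ ud D, (if sgd D d = 1 then J 21 o3 D d 1 3 + J 21 o7 D d 1 3
    else J 21 one D d 1 3 + J 21 (fun b => o3 b * o7 b) D d 1 3)

def S_INT21r : Prop := ∀ D : ℕ, R21r D → (2 : ℤ) ^ D.primeFactors.card ∣
  ∑ d ∈ ud D, (if sgd D d = 1 then J 21 o3 D d 1 3 else J 21 one D d 1 3)

def S_INT15 : Prop := ∀ D : ℕ, R15 D → (2 : ℤ) ^ (D.primeFactors.card + 1) ∣
  ∑ d ∈ ud D, (if sgd D d = 1 then J 15 o5 D d 1 3 + J 15 o3 D d 1 3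
    else J 15 one D d 1 3 + J 15 one D d 0 1 + J 15 (fun b => o3 b * o5 b) D d 1 3 +
      J 15 (fun b => o3 b * o5 b) D d 0 1)

def S_INT15r : Prop := ∀ D : ℕ, R15r D → (2 : ℤ) ^ D.primeFactors.card ∣
  ∑ d ∈ ud D, (if sgd D d = 1 then J 15 o5 D d 1 3 else J 15 one D d 1 3 + J 15 one D d 0 1)

/-! ### NEG: evaluation for the negative divisors by the numbers of vectors of the definite
lattices of the maximal orders -/

/-- the number of vectors of norm `n` of the lattice of the maximal order of the quaternion algebra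
ramified at `7` and `∞` -/
def rr7 (n : ℕ) : ℤ := (((Fintype.piFinset fun _ : Fin 3 => Icc (-(n : ℤ)) n).filter
  fun v : Fin 3 → ℤ => 7 * v 0 ^ 2 + 4 * v 1 ^ 2 + 8 * v 2 ^ 2 + 4 * v 1 * v 2 = n).card : ℤ)

def S_NEG21 : Prop := ∀ D d : ℕ, (R21 D ∨ R21r D) → Un D d → sgd D d = -1 →
  8 * J 21 one D d 1 3 = (if d % 3 = 1 then 2 else -1) * (rr7 d * rr7 (D / d)) ∧
    (R21 D → J 21 (fun b => o3 b * o7 b) D d 1 3 = 0)

/-- `3 ∤ D` -/
def S_NEG15 : Prop := ∀ D d : ℕ, R15 D → Un D d → sgd D d = -1 →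
  36 * (J 15 one D d 1 3 + J 15 one D d 0 1) =
    (if jacobiSym d 5 = -1 then (if d % 3 = 1 then 6 else -6) * (P15.rr d * P15.rr (D / d : ℕ))
      else - (N877.P21.rr d * N877.P21.rr (D / d : ℕ))) ∧
  J 15 (fun b => o3 b * o5 b) D d 1 3 + J 15 (fun b => o3 b * o5 b) D d 0 1 = 0

/-- `3 ∣ D`; `d` is the factor prime to `3` (for the other factor see `S_SW`) -/
def S_NEG15r : Prop := ∀ D d : ℕ, R15r D → Un D d → sgd D d = -1 → ¬ 3 ∣ d →
  36 * (J 15 one D d 1 3 + J 15 one D d 0 1) =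
    (if jacobiSym d 5 = -1 then (if d % 3 = 1 then 3 else -3) * (P15.rr d * P15.rr (D / d : ℕ))
      else - (N877.P21.rr d * N877.P21.rr (D / d : ℕ)))

/-! ### VAN: vanishing for the positive divisors of the wrong class (Atkin-Lehner) -/

def S_VAN21 : Prop := ∀ D d : ℕ, (R21 D ∨ R21r D) → Un D d → sgd D d = 1 →
  ((jacobiSym d 3 = -1 ∨ jacobiSym d 7 = -1) → J 21 o3 D d 1 3 = 0) ∧
  (R21 D → (jacobiSym d 3 = 1 ∨ jacobiSym d 7 = 1) → J 21 o7 D d 1 3 = 0)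

def S_VAN15 : Prop := ∀ D d : ℕ, (R15 D ∨ R15r D) → Un D d → sgd D d = 1 →
  ((jacobiSym d 3 = -1 ∨ jacobiSym d 5 = -1) → J 15 o5 D d 1 3 = 0) ∧
  (R15 D → (jacobiSym d 3 = 1 ∨ jacobiSym d 5 = 1) → J 15 o3 D d 1 3 = 0)

/-! ### CMP: comparison with the symbol of the elliptic curve, `l` an auxiliary prime -/

def S_CMP21 : Prop := ∀ D d l : ℕ, (R21 D ∨ R21r D) → Un D d → sgd D d = 1 → Nat.Prime l →
  N877.P21.Cls0 l →
  36 * ∑ u ∈ un l, jacobiSym u l * J 21 o3 D d u l = J 21 o3 D d 1 3 * N877.P21.cc l ^ 2 ∧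
  (R21 D → 36 * ∑ u ∈ un l, jacobiSym u l * J 21 o7 D d u l =
    J 21 o7 D d 1 3 * N877.P21.cc l ^ 2)

def S_CMP15 : Prop := ∀ D d l : ℕ, (R15 D ∨ R15r D) → Un D d → sgd D d = 1 → Nat.Prime l →
  P15.Cls0 l →
  9 * ∑ u ∈ un l, jacobiSym u l * J 15 o5 D d u l = J 15 o5 D d 1 3 * P15.cc l ^ 2 ∧
  (R15 D → 9 * ∑ u ∈ un l, jacobiSym u l * J 15 o3 D d u l = J 15 o3 D d 1 3 * P15.cc l ^ 2)

/-! ### C1: the character sums as divisor sums, `(D / l) = -1` -/

/-- the divisor sum for `t`, `m = (D l² - t²) / 4` -/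
def W (N D d l m : ℕ) : ℤ := ∑ a ∈ m.divisors.filter (N ∣ ·),
  jacobiSym a l * ((if 2 ∣ d then (if 2 ∣ a then c2 (3 * D) (-((m / a : ℕ) : ℤ))
    else c2 (3 * D) a) else 1) *
    ∏ p ∈ d.primeFactors.erase 2, if p ∣ a then jacobiSym (-((m / a : ℕ) : ℤ)) p
      else jacobiSym a p)

/-- the sum over `t` of a function of `t` and of the natural number `D l² - t²`, restricted to
`4 N ∣ D l² - t²` -/
def ST (N D l : ℕ) (f : ℤ → ℕ → ℤ) : ℤ :=
  ∑ t ∈ (Ioo (-((D * l : ℕ) : ℤ)) (D * l : ℕ)).filter (fun t : ℤ => t ^ 2 < (D * l ^ 2 : ℕ) ∧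
    ((4 * N : ℕ) : ℤ) ∣ (D * l ^ 2 : ℕ) - t ^ 2), f t ((D * l ^ 2 : ℕ) - t ^ 2 : ℤ).toNat

def S_C1J21 : Prop := ∀ D d l : ℕ, (R21 D ∨ R21r D) → Un D d → sgd D d = 1 → Nat.Prime l →
  N877.P21.Cls0 l → jacobiSym D l = -1 → ∀ w : ℤ → ℤ, (w = o3 ∨ (w = o7 ∧ R21 D)) →
  ∑ u ∈ un l, jacobiSym u l * J 21 w D d u l =
    ST 21 D l fun t m => w (t * l ^ 5) * jacobiSym (2 * t) l * W 21 D d l (m / 4)

def S_C1J15 : Prop := ∀ D d l : ℕ, (R15 D ∨ R15r D) → Un D d → sgd D d = 1 → Nat.Prime l →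
  P15.Cls0 l → jacobiSym D l = -1 → ∀ w : ℤ → ℤ, (w = o5 ∨ (w = o3 ∧ R15 D)) →
  ∑ u ∈ un l, jacobiSym u l * J 15 w D d u l =
    ST 15 D l fun t m => w (t * l ^ 3) * jacobiSym (2 * t) l * W 15 D d l (m / 4)

/-! ### C2: evaluation of the divisor sums -/

/-- the odd one of `d l`, `(D / d) l` -/
def nn (D d l : ℕ) : ℕ := if 2 ∣ d then D / d * l else d * l

/-- local densities; `ram` the ramified prime, `lev` the level prime -/
def lcr (n1 m ram lev : ℕ) : ℤ := if Odd (m.factorization ram) then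
  tw n1 m * ∏ q ∈ ((m.primeFactors.erase 2).erase ram).erase lev, fac n1 m q else 0

def S_C2J21 : Prop := ∀ D d l : ℕ, (R21 D ∨ R21r D) → Un D d → sgd D d = 1 → Nat.Prime l →
  N877.P21.Cls0 l → jacobiSym D l = -1 → ∀ (t : ℤ) (m : ℕ), 0 < m → (m : ℤ) = D * l ^ 2 - t ^ 2 →
  84 ∣ m → jacobiSym d 3 = 1 → (jacobiSym d 7 = 1 ∨ jacobiSym (D / d : ℕ) 7 = 1) →
  W 21 D d l (m / 4) = - ((if 7 ∣ D then 1 else (m.factorization 7 : ℤ)) * lcr (nn D d l) m 3 7)

def S_C2J21n : Prop := ∀ D d l : ℕ, R21 D → Un D d → sgd D d = 1 → Nat.Prime l →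
  N877.P21.Cls0 l → jacobiSym D l = -1 → ∀ (t : ℤ) (m : ℕ), 0 < m → (m : ℤ) = D * l ^ 2 - t ^ 2 →
  84 ∣ m → jacobiSym d 3 = -1 → jacobiSym d 7 = -1 →
  W 21 D d l (m / 4) = - ((m.factorization 3 : ℤ) * lcr (nn D d l) m 7 3)

def S_C2J15 : Prop := ∀ D d l : ℕ, (R15 D ∨ R15r D) → Un D d → sgd D d = 1 → Nat.Prime l →
  P15.Cls0 l → jacobiSym D l = -1 → ∀ (t : ℤ) (m : ℕ), 0 < m → (m : ℤ) = D * l ^ 2 - t ^ 2 →
  60 ∣ m → jacobiSym d 5 = 1 → (jacobiSym d 3 = 1 ∨ jacobiSym (D / d : ℕ) 3 = 1) →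
  W 15 D d l (m / 4) = - ((if 3 ∣ D then 1 else (m.factorization 3 : ℤ)) * lcr (nn D d l) m 5 3)

def S_C2J15n : Prop := ∀ D d l : ℕ, R15 D → Un D d → sgd D d = 1 → Nat.Prime l →
  P15.Cls0 l → jacobiSym D l = -1 → ∀ (t : ℤ) (m : ℕ), 0 < m → (m : ℤ) = D * l ^ 2 - t ^ 2 →
  60 ∣ m → jacobiSym d 3 = -1 → jacobiSym d 5 = -1 →
  W 15 D d l (m / 4) = - ((m.factorization 5 : ℤ) * lcr (nn D d l) m 3 5)

/-! ### BILJ: pairs of vectors of the norms `d l` and `(D / d) l` -/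

/-- level `21`, the sum with signs over the pairs with a common line modulo `7` -/
def TJ21 (D d l : ℕ) : ℤ := ST 21 D l fun t _ => o3 t * jacobiSym (2 * t) l *
  ((N877.P21.cp (d * l : ℕ) t (D / d * l : ℕ) : ℤ) + N877.P21.cp7 (d * l : ℕ) t (D / d * l : ℕ))

/-- level `21`, `7 ∣ D` -/
def TJ21r (D d l : ℕ) : ℤ := ST 21 D l fun t _ => o3 t * jacobiSym (2 * t) l *
  (N877.P21.cp (d * l : ℕ) t (D / d * l : ℕ) : ℤ)

/-- level `15`, the sum with signs over the pairs with a common line modulo `3` -/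
def TJ15 (D d l : ℕ) : ℤ := ST 15 D l fun t _ => o5 (t * l ^ 3) * jacobiSym (2 * t) l *
  ((P15.cp (d * l : ℕ) t (D / d * l : ℕ) : ℤ) + P15.cp3 (d * l : ℕ) t (D / d * l : ℕ))

/-- level `15`, `3 ∣ D` -/
def TJ15r (D d l : ℕ) : ℤ := ST 15 D l fun t _ => o5 (t * l ^ 3) * jacobiSym (2 * t) l *
  (P15.cp (d * l : ℕ) t (D / d * l : ℕ) : ℤ)

end

end Pool.Agent.N969.RQ
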