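import Mathlib
import Pool.Agent.N969.RQ.Defs

/-!
# Project RQ, second part

* the evaluation of the divisor sums (corrected: `l ∤ t`), generic form of `C1J`;
* the crossing numbers of the levels `3`, `5`, `7` vanish (there are no cusp forms), which gives the
  vanishing of the signed numbers of pairs of vectors of the lattices of the maximal orders.

All statements are verified numerically.
-/

set_option autoImplicit false

namespace Pool.Agent.N969.RQ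

open Finset
open Pool.Agent.Z700 (hh fac)
open Pool.Agent.N969.P15 (V3 tw ep2 Qc Qe un Ev c2)

noncomputable section

/-- C1J for any level and any weight function modulo `N`; `li` is the inverse of `l` modulo `N` -/
def S_C1J : Prop := ∀ (N : ℕ) (w : ℤ → ℤ) (D d l : ℕ) (li : ℤ), 0 < N → Fd D → Un D d →
  Nat.Prime l → l ≠ 2 → ¬ l ∣ N → jacobiSym D l = -1 →
  (∀ a b : ℤ, (N : ℤ) ∣ a - b → w a = w b) → (N : ℤ) ∣ l * li - 1 →
  ∑ u ∈ un l, jacobiSym u l * J N w D d u l =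
    ST N D l fun t m => w (t * li) * jacobiSym (2 * t) l * W N D d l (m / 4)

/-- C2J at level `21`, corrected -/
def S_C2J21' : Prop := ∀ D d l : ℕ, (R21 D ∨ R21r D) → Un D d → sgd D d = 1 → Nat.Prime l →
  N877.P21.Cls0 l → jacobiSym D l = -1 → ∀ (t : ℤ) (m : ℕ), 0 < m → (m : ℤ) = D * l ^ 2 - t ^ 2 →
  ¬ (l : ℤ) ∣ t →
  84 ∣ m → jacobiSym d 3 = 1 → (jacobiSym d 7 = 1 ∨ jacobiSym (D / d : ℕ) 7 = 1) →
  W 21 D d l (m / 4) = - ((if 7 ∣ D then 1 else (m.factorization 7 : ℤ)) * lcr (nn D d l) m 3 7)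

def S_C2J21n' : Prop := ∀ D d l : ℕ, R21 D → Un D d → sgd D d = 1 → Nat.Prime l →
  N877.P21.Cls0 l → jacobiSym D l = -1 → ∀ (t : ℤ) (m : ℕ), 0 < m → (m : ℤ) = D * l ^ 2 - t ^ 2 →
  ¬ (l : ℤ) ∣ t → 84 ∣ m → jacobiSym d 3 = -1 → jacobiSym d 7 = -1 →
  W 21 D d l (m / 4) = - ((m.factorization 3 : ℤ) * lcr (nn D d l) m 7 3)

def S_C2J15' : Prop := ∀ D d l : ℕ, (R15 D ∨ R15r D) → Un D d → sgd D d = 1 → Nat.Prime l →
  P15.Cls0 l → jacobiSym D l = -1 → ∀ (t : ℤ) (m : ℕ), 0 < m → (m : ℤ) = D * l ^ 2 - t ^ 2 →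
  ¬ (l : ℤ) ∣ t →
  60 ∣ m → jacobiSym d 5 = 1 → (jacobiSym d 3 = 1 ∨ jacobiSym (D / d : ℕ) 3 = 1) →
  W 15 D d l (m / 4) = - ((if 3 ∣ D then 1 else (m.factorization 3 : ℤ)) * lcr (nn D d l) m 5 3)

def S_C2J15n' : Prop := ∀ D d l : ℕ, R15 D → Un D d → sgd D d = 1 → Nat.Prime l →
  P15.Cls0 l → jacobiSym D l = -1 → ∀ (t : ℤ) (m : ℕ), 0 < m → (m : ℤ) = D * l ^ 2 - t ^ 2 →
  ¬ (l : ℤ) ∣ t → 60 ∣ m → jacobiSym d 3 = -1 → jacobiSym d 5 = -1 →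
  W 15 D d l (m / 4) = - ((m.factorization 5 : ℤ) * lcr (nn D d l) m 3 5)

/-! ### the levels `3`, `5`, `7` -/

/-- the orientation at `p` -/
def op (p : ℕ) : ℤ → ℤ := if p = 5 then o5 else if p = 3 then o3 else o7

/-- the inverse of `l` modulo `p` up to a sign (a power of `l`) -/
def lv (p l : ℕ) : ℤ := (l : ℤ) ^ (p - 2)

/-- LOW: the crossing numbers of the levels `3`, `5`, `7` vanish -/
def S_LOW : Prop := ∀ p : ℕ, (p = 3 ∨ p = 5 ∨ p = 7) → ∀ D d : ℕ, Fd D → jacobiSym D p = 1 →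
  Un D d → sgd D d = 1 → ∀ x M : ℤ, M ≠ 0 → J p (op p) D d x M = 0

/-- local densities, `p` the ramified prime -/
def lcp (n1 m p : ℕ) : ℤ := if Odd (m.factorization p) then
  tw n1 m * ∏ q ∈ (m.primeFactors.erase 2).erase p, fac n1 m q else 0

/-- C2J at the levels `3`, `5`, `7` -/
def S_C2Jp : Prop := ∀ p : ℕ, (p = 3 ∨ p = 5 ∨ p = 7) → ∀ D d l : ℕ, Fd D → jacobiSym D p = 1 →
  Un D d → sgd D d = 1 → Nat.Prime l → l % 4 = 3 → l ≠ p → jacobiSym D l = -1 →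
  jacobiSym (-((d * l : ℕ) : ℤ)) p = -1 →
  ∀ (t : ℤ) (m : ℕ), 0 < m → (m : ℤ) = D * l ^ 2 - t ^ 2 → ¬ (l : ℤ) ∣ t → 4 * p ∣ m →
  W p D d l (m / 4) = - lcp (nn D d l) m p

/-- EISJ at `3`: the signed number of pairs of vectors of norms `d l`, `(D / d) l` vanishes
(lattice of the maximal order of the quaternion algebra ramified at `3`) -/
def S_EISJ3 : Prop := ∀ D d l : ℕ, Fd D → D % 3 = 1 → Un D d → sgd D d = 1 → Nat.Prime l →
  l % 4 = 3 → l ≠ 3 → jacobiSym D l = -1 → jacobiSym (-((d * l : ℕ) : ℤ)) 3 = -1 →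
  ST 3 D l (fun t _ => o3 (t * l) * jacobiSym (2 * t) l *
    (N877.P21.cp (d * l : ℕ) t (D / d * l : ℕ) : ℤ)) = 0

/-- EISJ at `5` (lattice of the maximal order of the quaternion algebra ramified at `5`) -/
def S_EISJ5 : Prop := ∀ D d l : ℕ, Fd D → (D % 5 = 1 ∨ D % 5 = 4) → Un D d → sgd D d = 1 →
  Nat.Prime l → l % 4 = 3 → jacobiSym D l = -1 → jacobiSym (-((d * l : ℕ) : ℤ)) 5 = -1 →
  ST 5 D l (fun t _ => o5 (t * l ^ 3) * jacobiSym (2 * t) l *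
    (P15.cp (d * l : ℕ) t (D / d * l : ℕ) : ℤ)) = 0

/-- the inner product of the lattice of the maximal order ramified at `7` -/
def ip7 (v w : V3) : ℤ :=
  7 * (v 0 * w 0) + 4 * (v 1 * w 1) + 8 * (v 2 * w 2) + 2 * (v 1 * w 2 + v 2 * w 1)

/-- its vectors of norm `n` -/
def vec7 (n : ℤ) : Finset V3 :=
  (Fintype.piFinset fun _ => Icc (-n) n).filter fun v => ip7 v v = n

/-- the number of pairs of vectors with Gram matrix `(n1, b; b, n2)` -/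
def c7 (n1 b n2 : ℤ) : ℕ := ((vec7 n1 ×ˢ vec7 n2).filter fun q => ip7 q.1 q.2 = b).card

/-- the pair count of the lattice ramified at `7` -/
def S_PC7 : Prop := ∀ (n1 n2 : ℕ) (b : ℤ) (D : ℕ), Squarefree n1 → n1 % 4 = 3 → ¬ 7 ∣ n1 →
  0 < D → (D : ℤ) = n1 * n2 - b ^ 2 → jacobiSym (-(n1 : ℤ)) 7 = -1 →
  (c7 n1 b n2 : ℤ) = 4 * lcp n1 D 7

/-- EISJ at `7` -/
def S_EISJ7 : Prop := ∀ D d l : ℕ, Fd D → jacobiSym D 7 = 1 → Un D d → sgd D d = 1 →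
  Nat.Prime l → l % 4 = 3 → l ≠ 7 → jacobiSym D l = -1 →
  jacobiSym (-((d * l : ℕ) : ℤ)) 7 = -1 →
  ST 7 D l (fun t _ => o7 (t * l ^ 5) * jacobiSym (2 * t) l *
    (c7 (d * l : ℕ) t (D / d * l : ℕ) : ℤ)) = 0

end

end Pool.Agent.N969.RQ
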