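import Mathlib
import Pool.Agent.N969.RQ.Defs2

/-!
# Project RQ, third part: all auxiliary primes, and the dual sums for the central values

* `C1J`, `C2J`, `EISJ`, `BILJ` for every auxiliary prime `l ∤ D` (also `(D / l) = 1`, where the
  multiples `t` of `l` contribute);
* the dual sums: forms of discriminant `l²` with the genus character at `l`, tested at the cusps
  `u / A`; `A > 0` a fundamental discriminant.

All statements are verified numerically.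
-/

set_option autoImplicit false

namespace Pool.Agent.N969.RQ

open Finset
open Pool.Agent.Z700 (hh fac)
open Pool.Agent.N969.P15 (V3 tw ep2 Qc Qe un Ev c2 psp psp2)
open Pool.Agent.N969.P17G (gen sgp psl chP)

noncomputable section

/-! ### all auxiliary primes -/

/-- the sum of `(u / l)` over the nonzero roots `u` of `a u² - t u - a'` modulo `l` -/
def rho (l a a' : ℕ) (t : ℤ) : ℤ :=
  ∑ u ∈ (un l).filter (fun u : ℕ => (l : ℤ) ∣ (a : ℤ) * u ^ 2 - t * u - a'), jacobiSym u l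

/-- the genus character of `d` of a form with first coefficient `a` and product `- m` -/
def pw (D d a m : ℕ) : ℤ :=
  (if 2 ∣ d then (if 2 ∣ a then c2 (3 * D) (-((m / a : ℕ) : ℤ)) else c2 (3 * D) a) else 1) *
    ∏ p ∈ d.primeFactors.erase 2, if p ∣ a then jacobiSym (-((m / a : ℕ) : ℤ)) p
      else jacobiSym a p

/-- the divisor sum for `t`, with the sign at `l` -/
def Wp (N D d l : ℕ) (t : ℤ) (m : ℕ) : ℤ :=
  if (l : ℤ) ∣ t then jacobiSym d l * ∑ a ∈ (m / (4 * l ^ 2)).divisors.filter (N ∣ ·),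
      pw D d a (m / (4 * l ^ 2)) * rho l a (m / (4 * l ^ 2) / a) (t / l)
    else jacobiSym (2 * t) l * W N D d l (m / 4)

open Classical in
/-- the product of the signs at `l` of two vectors of norms `d l`, `(D / d) l` with inner product
`t` -/
def sj (D d l : ℕ) (t : ℤ) : ℤ :=
  if (l : ℤ) ∣ t then
    (if ∃ c : ℤ, (l : ℤ) ∣ (D / d : ℕ) * c ^ 2 - 2 * (t / l) * c + d ∧ jacobiSym c l = 1 then 1
      else -1)
  else jacobiSym (2 * t) l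

/-- C1J for any level, any weight function modulo `N` and any `l ∤ 2 N D` -/
def S_C1Jp : Prop := ∀ (N : ℕ) (w : ℤ → ℤ) (D d l : ℕ) (li : ℤ), 0 < N → Fd D → Un D d →
  sgd D d = 1 → Nat.Prime l → l ≠ 2 → ¬ l ∣ N → ¬ l ∣ D →
  (∀ a b : ℤ, (N : ℤ) ∣ a - b → w a = w b) → (N : ℤ) ∣ l * li - 1 →
  ∑ u ∈ un l, jacobiSym u l * J N w D d u l = ST N D l fun t m => w (t * li) * Wp N D d l t m

/-- C2J at level `21` -/
def S_C2Jp21 : Prop := ∀ D d l : ℕ, (R21 D ∨ R21r D) → Un D d → sgd D d = 1 → Nat.Prime l →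
  N877.P21.Cls0 l → ¬ l ∣ D → ∀ (t : ℤ) (m : ℕ), 0 < m → (m : ℤ) = D * l ^ 2 - t ^ 2 →
  (¬ (l : ℤ) ∣ t ∨ jacobiSym D l = 1) →
  84 ∣ m → jacobiSym d 3 = 1 → (jacobiSym d 7 = 1 ∨ jacobiSym (D / d : ℕ) 7 = 1) →
  Wp 21 D d l t m =
    - (sj D d l t * ((if 7 ∣ D then 1 else (m.factorization 7 : ℤ)) * lcr (nn D d l) m 3 7))

def S_C2Jp21n : Prop := ∀ D d l : ℕ, R21 D → Un D d → sgd D d = 1 → Nat.Prime l →
  N877.P21.Cls0 l → ¬ l ∣ D → ∀ (t : ℤ) (m : ℕ), 0 < m → (m : ℤ) = D * l ^ 2 - t ^ 2 →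
  (¬ (l : ℤ) ∣ t ∨ jacobiSym D l = 1) → 84 ∣ m → jacobiSym d 3 = -1 → jacobiSym d 7 = -1 →
  Wp 21 D d l t m = - (sj D d l t * ((m.factorization 3 : ℤ) * lcr (nn D d l) m 7 3))

def S_C2Jp15 : Prop := ∀ D d l : ℕ, (R15 D ∨ R15r D) → Un D d → sgd D d = 1 → Nat.Prime l →
  P15.Cls0 l → ¬ l ∣ D → ∀ (t : ℤ) (m : ℕ), 0 < m → (m : ℤ) = D * l ^ 2 - t ^ 2 →
  (¬ (l : ℤ) ∣ t ∨ jacobiSym D l = 1) →
  60 ∣ m → jacobiSym d 5 = 1 → (jacobiSym d 3 = 1 ∨ jacobiSym (D / d : ℕ) 3 = 1) →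
  Wp 15 D d l t m =
    - (sj D d l t * ((if 3 ∣ D then 1 else (m.factorization 3 : ℤ)) * lcr (nn D d l) m 5 3))

def S_C2Jp15n : Prop := ∀ D d l : ℕ, R15 D → Un D d → sgd D d = 1 → Nat.Prime l →
  P15.Cls0 l → ¬ l ∣ D → ∀ (t : ℤ) (m : ℕ), 0 < m → (m : ℤ) = D * l ^ 2 - t ^ 2 →
  (¬ (l : ℤ) ∣ t ∨ jacobiSym D l = 1) → 60 ∣ m → jacobiSym d 3 = -1 → jacobiSym d 5 = -1 →
  Wp 15 D d l t m = - (sj D d l t * ((m.factorization 5 : ℤ) * lcr (nn D d l) m 3 5))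

/-- C2J at the levels `3`, `5`, `7` -/
def S_C2Jpp : Prop := ∀ p : ℕ, (p = 3 ∨ p = 5 ∨ p = 7) → ∀ D d l : ℕ, Fd D → jacobiSym D p = 1 →
  Un D d → sgd D d = 1 → Nat.Prime l → l % 4 = 3 → l ≠ p → ¬ l ∣ D →
  jacobiSym (-((d * l : ℕ) : ℤ)) p = -1 →
  ∀ (t : ℤ) (m : ℕ), 0 < m → (m : ℤ) = D * l ^ 2 - t ^ 2 → (¬ (l : ℤ) ∣ t ∨ jacobiSym D l = 1) →
  4 * p ∣ m → Wp p D d l t m = - (sj D d l t * lcp (nn D d l) m p)

/-- EISJ for all auxiliary primes -/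
def S_EISJ3p : Prop := ∀ D d l : ℕ, Fd D → D % 3 = 1 → Un D d → sgd D d = 1 → Nat.Prime l →
  l % 4 = 3 → l ≠ 3 → ¬ l ∣ D → jacobiSym (-((d * l : ℕ) : ℤ)) 3 = -1 →
  ST 3 D l (fun t _ => o3 (t * l) * sj D d l t *
    (N877.P21.cp (d * l : ℕ) t (D / d * l : ℕ) : ℤ)) = 0

def S_EISJ5p : Prop := ∀ D d l : ℕ, Fd D → (D % 5 = 1 ∨ D % 5 = 4) → Un D d → sgd D d = 1 →
  Nat.Prime l → l % 4 = 3 → ¬ l ∣ D → jacobiSym (-((d * l : ℕ) : ℤ)) 5 = -1 →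
  ST 5 D l (fun t _ => o5 (t * l ^ 3) * sj D d l t *
    (P15.cp (d * l : ℕ) t (D / d * l : ℕ) : ℤ)) = 0

def S_EISJ7p : Prop := ∀ D d l : ℕ, Fd D → jacobiSym D 7 = 1 → Un D d → sgd D d = 1 →
  Nat.Prime l → l % 4 = 3 → l ≠ 7 → ¬ l ∣ D → jacobiSym (-((d * l : ℕ) : ℤ)) 7 = -1 →
  ST 7 D l (fun t _ => o7 (t * l ^ 5) * sj D d l t *
    (c7 (d * l : ℕ) t (D / d * l : ℕ) : ℤ)) = 0

/-! ### the dual sums -/

/-- the genus sign of two vectors of norm `A l` with inner product `2 T - A l`, `T` divisible by the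
ramified prime -/
def sl (A l : ℕ) (T : ℤ) : ℤ := - sgp 1 (A * l) l T

/-- the local weights of a form `(a x - X y) (a' x + Y y)` and the cusps `u / A` -/
def wd (A l a a' Y X : ℕ) : ℤ := psl l a a' Y X *
  ((if 2 ∣ A then psp2 (3 * A) a a' Y X else 1) * ∏ p ∈ A.primeFactors.erase 2, psp p a a' Y X)

/-- the divisor sum, `q` the level prime, `r` the ramified prime, `q r ∤ A` -/
def WD (q r A l S T : ℕ) : ℤ := ∑ a ∈ S.divisors.filter (q ∣ ·),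
  ∑ a' ∈ T.divisors.filter (r ∣ ·), wd A l a a' (S / a) (T / a')

/-- the divisor sum for `q ∣ A` -/
def WDr (q r A l S T : ℕ) : ℤ := ∑ a ∈ S.divisors.filter (fun a => ¬ q ∣ a),
  ∑ a' ∈ T.divisors.filter (fun a' => r ∣ a' ∧ ¬ q ∣ a'), wd A l a a' (S / a) (T / a')

open Classical in
/-- the forms of discriminant `l²`, level `q r`, mixed orientation, changing sign between `∞` and
`x / M`, weighted with the genus character at `l` -/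
def Fl (q r l : ℕ) (x M : ℤ) : ℤ := ∑ᶠ f : ℤ × ℤ × ℤ,
  if f.2.1 ^ 2 - 4 * f.1 * f.2.2 = (l : ℤ) ^ 2 ∧ ((q * r : ℕ) : ℤ) ∣ f.1 ∧
    (((q : ℤ) ∣ f.2.1 - l ∧ (r : ℤ) ∣ f.2.1 + l) ∨ ((q : ℤ) ∣ f.2.1 + l ∧ (r : ℤ) ∣ f.2.1 - l)) ∧
    0 < f.1 ∧ f.1 * x ^ 2 + f.2.1 * x * M + f.2.2 * M ^ 2 < 0 then gen l f else 0

open Classical in
/-- the forms of discriminant `l²` with first coefficient divisible by `r` and prime to `q` -/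
def Flr (q r l : ℕ) (x M : ℤ) : ℤ := ∑ᶠ f : ℤ × ℤ × ℤ,
  if f.2.1 ^ 2 - 4 * f.1 * f.2.2 = (l : ℤ) ^ 2 ∧ (r : ℤ) ∣ f.1 ∧ ¬ (q : ℤ) ∣ f.1 ∧
    0 < f.1 ∧ f.1 * x ^ 2 + f.2.1 * x * M + f.2.2 * M ^ 2 < 0 then gen l f else 0

/-- C1D: the character sums over the cusps `u / A`; `(q, r) = (7, 3)`, `(3, 5)`, ... -/
def S_C1D : Prop := ∀ q r A l : ℕ, Nat.Prime q → Nat.Prime r → q ≠ r → q ≠ 2 → r ≠ 2 → Fd A →
  Nat.Prime l → l % 4 = 3 → l ≠ q → l ≠ r → ¬ l ∣ A → ¬ r ∣ A → ¬ q ∣ A →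
  ∑ u ∈ un A, chP A u * Fl q r l u A =
    2 * ∑ T ∈ (range (A * l)).filter (fun T => r ∣ T ∧ q ∣ A * l - T), WD q r A l (A * l - T) T

/-- C1Dr: the same for `q ∣ A` -/
def S_C1Dr : Prop := ∀ q r A l : ℕ, Nat.Prime q → Nat.Prime r → q ≠ r → q ≠ 2 → r ≠ 2 → Fd A →
  Nat.Prime l → l % 4 = 3 → l ≠ q → l ≠ r → ¬ l ∣ A → ¬ r ∣ A → q ∣ A →
  ∑ u ∈ un A, chP A u * Flr q r l u A =
    2 * ∑ T ∈ (range (A * l)).filter (fun T => r ∣ T ∧ ¬ q ∣ T), WDr q r A l (A * l - T) T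

/-- the local densities at level `21` -/
def ld21 (n : ℕ) (T : ℕ) : ℤ := if 2 ∣ n then
  N877.P21.loc7E n ((T : ℤ) - ((n - T : ℕ) : ℤ)) (4 * (n - T) * T)
  else N877.P21.loc7 n (4 * (n - T) * T)

def ld21r (n : ℕ) (T : ℕ) : ℤ := if 2 ∣ n then
  N877.P21.locE n ((T : ℤ) - ((n - T : ℕ) : ℤ)) (4 * (n - T) * T)
  else N877.P21.loc n (4 * (n - T) * T)

/-- the local densities at level `15` -/
def ld15 (n : ℕ) (T : ℕ) : ℤ := if 2 ∣ n then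
  P15.loc3E n ((T : ℤ) - ((n - T : ℕ) : ℤ)) (4 * (n - T) * T)
  else P15.loc3 n (4 * (n - T) * T)

def ld15r (n : ℕ) (T : ℕ) : ℤ := if 2 ∣ n then
  P15.locE n ((T : ℤ) - ((n - T : ℕ) : ℤ)) (4 * (n - T) * T)
  else P15.loc n (4 * (n - T) * T)

/-- C2D: evaluation of the divisor sums -/
def S_C2D21 : Prop := ∀ A l : ℕ, R21 A → Nat.Prime l → N877.P21.Cls0 l → ¬ l ∣ A →
  ∀ T : ℕ, 0 < T → T < A * l → 3 ∣ T → 7 ∣ A * l - T →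
  WD 7 3 A l (A * l - T) T = - (sl A l T * ld21 (A * l) T)

def S_C2D21r : Prop := ∀ A l : ℕ, R21r A → Nat.Prime l → N877.P21.Cls0 l → ¬ l ∣ A →
  ∀ T : ℕ, 0 < T → T < A * l → 3 ∣ T → ¬ 7 ∣ T →
  WDr 7 3 A l (A * l - T) T = - (sl A l T * ld21r (A * l) T)

def S_C2D15 : Prop := ∀ A l : ℕ, R15 A → Nat.Prime l → P15.Cls0 l → ¬ l ∣ A →
  ∀ T : ℕ, 0 < T → T < A * l → 5 ∣ T → 3 ∣ A * l - T →
  WD 3 5 A l (A * l - T) T = - (sl A l T * ld15 (A * l) T)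

def S_C2D15r : Prop := ∀ A l : ℕ, R15r A → Nat.Prime l → P15.Cls0 l → ¬ l ∣ A →
  ∀ T : ℕ, 0 < T → T < A * l → 5 ∣ T → ¬ 3 ∣ T →
  WDr 3 5 A l (A * l - T) T = - (sl A l T * ld15r (A * l) T)

/-! ### the definite side: signed sums over the vectors of norm `n l` -/

/-- BIL at level `21`: `Z n` (`R n`) is the sum over the vectors of norm `n l` with the sign at `l`
and the orientation at `3`, with (without) the weight of the level structure at `7` -/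
def S_BILJ21 : Prop := ∀ l : ℕ, Nat.Prime l → N877.P21.Cls0 l → ∃ Z R : ℕ → ℤ,
  Z 1 = N877.P21.cc l ∧ R 1 = N877.P21.rr l ∧
  (∀ D d : ℕ, (R21 D ∨ R21r D) → ¬ l ∣ D → Un D d → sgd D d = 1 → jacobiSym d 3 = 1 →
    ST 3 D l (fun t _ => o3 (t * l) * sj D d l t *
      (N877.P21.cp (d * l : ℕ) t (D / d * l : ℕ) : ℤ)) = R d * R (D / d) ∧
    (R21 D → jacobiSym d 7 = 1 → 6 * ST 21 D l (fun t _ => o3 (t * l) * sj D d l t *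
      ((N877.P21.cp (d * l : ℕ) t (D / d * l : ℕ) : ℤ) +
        N877.P21.cp7 (d * l : ℕ) t (D / d * l : ℕ))) = 3 * (R d * R (D / d)) + Z d * Z (D / d)) ∧
    (R21r D → (jacobiSym d 7 = 1 ∨ jacobiSym (D / d : ℕ) 7 = 1) →
      12 * ST 21 D l (fun t _ => o3 (t * l) * sj D d l t *
        (N877.P21.cp (d * l : ℕ) t (D / d * l : ℕ) : ℤ)) =
        3 * (R d * R (D / d)) + Z d * Z (D / d))) ∧
  (∀ A : ℕ, ¬ l ∣ A →
    (R21 A → 576 * ∑ T ∈ (range (A * l)).filter (fun T => 3 ∣ T ∧ 7 ∣ A * l - T),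
      sl A l T * ld21 (A * l) T = 3 * R A ^ 2 + Z A ^ 2) ∧
    (R21r A → 576 * ∑ T ∈ (range (A * l)).filter (fun T => 3 ∣ T ∧ ¬ 7 ∣ T),
      sl A l T * ld21r (A * l) T = 21 * R A ^ 2 - Z A ^ 2))

/-- BIL at level `15` -/
def S_BILJ15 : Prop := ∀ l : ℕ, Nat.Prime l → P15.Cls0 l → ∃ Z R : ℕ → ℤ,
  Z 1 = P15.cc l ∧ R 1 = P15.rr l ∧
  (∀ D d : ℕ, (R15 D ∨ R15r D) → ¬ l ∣ D → Un D d → sgd D d = 1 → jacobiSym d 5 = 1 →
    ST 5 D l (fun t _ => o5 (t * l ^ 3) * sj D d l t *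
      (P15.cp (d * l : ℕ) t (D / d * l : ℕ) : ℤ)) = R d * R (D / d) ∧
    (R15 D → jacobiSym d 3 = 1 → 3 * ST 15 D l (fun t _ => o5 (t * l ^ 3) * sj D d l t *
      ((P15.cp (d * l : ℕ) t (D / d * l : ℕ) : ℤ) +
        P15.cp3 (d * l : ℕ) t (D / d * l : ℕ))) = 3 * (R d * R (D / d)) + Z d * Z (D / d)) ∧
    (R15r D → (jacobiSym d 3 = 1 ∨ jacobiSym (D / d : ℕ) 3 = 1) →
      6 * ST 15 D l (fun t _ => o5 (t * l ^ 3) * sj D d l t *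
        (P15.cp (d * l : ℕ) t (D / d * l : ℕ) : ℤ)) =
        3 * (R d * R (D / d)) + Z d * Z (D / d))) ∧
  (∀ A : ℕ, ¬ l ∣ A →
    (R15 A → 144 * ∑ T ∈ (range (A * l)).filter (fun T => 5 ∣ T ∧ 3 ∣ A * l - T),
      sl A l T * ld15 (A * l) T = 3 * R A ^ 2 + Z A ^ 2) ∧
    (R15r A → 144 * ∑ T ∈ (range (A * l)).filter (fun T => 5 ∣ T ∧ ¬ 3 ∣ T),
      sl A l T * ld15r (A * l) T = 9 * R A ^ 2 - Z A ^ 2))

/-! ### results -/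

/-- FAC: the crossing numbers with genus characters factor (from the above, `Z D = - 4 J cc` or
`- 8 J cc`, `R D = 0`) -/
def S_FAC21 : Prop := ∀ D d : ℕ, (R21 D ∨ R21r D) → Un D d → sgd D d = 1 → d ≠ 1 → d ≠ D →
  jacobiSym d 3 = 1 → jacobiSym d 7 ≠ -1 → jacobiSym (D / d : ℕ) 7 ≠ -1 →
  J 21 o3 D d 1 3 = -4 * (J 21 o3 d 1 1 3 * J 21 o3 (D / d) 1 1 3)

def S_FAC15 : Prop := ∀ D d : ℕ, (R15 D ∨ R15r D) → Un D d → sgd D d = 1 → d ≠ 1 → d ≠ D →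
  jacobiSym d 5 = 1 → jacobiSym d 3 ≠ -1 → jacobiSym (D / d : ℕ) 3 ≠ -1 →
  J 15 o5 D d 1 3 = -4 * (J 15 o5 d 1 1 3 * J 15 o5 (D / d) 1 1 3)

/-- NV: from a crossing number to the sum over the cusps `u / A` -/
def S_NV21 : Prop := ∀ A : ℕ, J 21 o3 A 1 1 3 ≠ 0 → ∃ l : ℕ, Nat.Prime l ∧ N877.P21.Cls0 l ∧
  ¬ l ∣ A ∧ (R21 A → ∑ u ∈ un A, chP A u * Fl 7 3 l u A ≠ 0) ∧
  (R21r A → ∑ u ∈ un A, chP A u * Flr 7 3 l u A ≠ 0)

def S_NV15 : Prop := ∀ A : ℕ, J 15 o5 A 1 1 3 ≠ 0 → ∃ l : ℕ, Nat.Prime l ∧ P15.Cls0 l ∧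
  ¬ l ∣ A ∧ (R15 A → ∑ u ∈ un A, chP A u * Fl 3 5 l u A ≠ 0) ∧
  (R15r A → ∑ u ∈ un A, chP A u * Flr 3 5 l u A ≠ 0)

end

end Pool.Agent.N969.RQ
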