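import Mathlib
import Pool.Agent.N969.RQ.Defs3
import Pool.Agent.N877.P21G.Defs2

/-!
# Project RQ, fourth part: the crossing numbers of level `21` with the orientation at `7`

`D` in `R21`, `d` and `D / d` in the class `Ai` (`3` and `7` inert): the crossing number with the
genus character of `d` and the orientation at `7` is, up to the sign, the product of the constants of
`d` and of `D / d` (lattice ramified at `7`, `N877/P21G/Defs`). Verified numerically.
-/

set_option autoImplicit false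

namespace Pool.Agent.N969.RQ

open Finset
open Pool.Agent.N877.P21G (Ai K0 P7 cp3)

noncomputable section

/-- BIL: the pairs of vectors of norms `d l`, `(D / d) l` of the lattice ramified at `7` with a common
line modulo `3` -/
def S_BILJ21n : Prop := ∀ l : ℕ, Nat.Prime l → N877.P21.Cls0 l → ∃ Z R : ℕ → ℤ,
  (∀ D d : ℕ, R21 D → ¬ l ∣ D → Un D d → sgd D d = 1 → jacobiSym d 3 = -1 → jacobiSym d 7 = -1 →
    ST 7 D l (fun t _ => o7 (t * l ^ 5) * sj D d l t *
      (c7 (d * l : ℕ) t (D / d * l : ℕ) : ℤ)) = R d * R (D / d) ∧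
    (ST 21 D l (fun t _ => o7 (t * l ^ 5) * sj D d l t *
      ((c7 (d * l : ℕ) t (D / d * l : ℕ) : ℤ) + cp3 (d * l : ℕ) t (D / d * l : ℕ))) =
        R d * R (D / d) + Z d * Z (D / d) ∨
     ST 21 D l (fun t _ => o7 (t * l ^ 5) * sj D d l t *
      ((c7 (d * l : ℕ) t (D / d * l : ℕ) : ℤ) + cp3 (d * l : ℕ) t (D / d * l : ℕ))) =
        R d * R (D / d) - Z d * Z (D / d))) ∧
  (∀ A : ℕ, ¬ l ∣ A → Ai A → P7 A (A * l) = Z A ^ 2)

/-- FAC: the factorization of the crossing number (from BILJ21n, C1Jp, C2Jp21n, CP3, EISJ7p, CMP21);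
`c`, `c'` are the constants of `S_KAI` -/
def S_FAC21n : Prop := ∀ D d : ℕ, R21 D → Un D d → sgd D d = 1 → Ai d → Ai (D / d) → ∀ c c' : ℚ,
  (∀ m : ℕ, Nat.Coprime d m → K0 m → (P7 d (d * m) : ℚ) = c * (N877.P21.cc m : ℚ) ^ 2) →
  (∀ m : ℕ, Nat.Coprime (D / d) m → K0 m →
    (P7 (D / d) (D / d * m) : ℚ) = c' * (N877.P21.cc m : ℚ) ^ 2) →
  4 * (J 21 o7 D d 1 3 : ℚ) ^ 2 = 81 * (c * c')

end

end Pool.Agent.N969.RQ
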