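import Mathlib
import Pool.Agent.N969.RQ.Defs3
import Pool.Agent.N973.P15G.Defs

/-!
# Project RQ, fifth part: the crossing numbers of level `15` with the orientation at `3`

`D` in `R15`, `d` and `D / d` in the class `Aii` of `N973/P15G/Defs` (`3` and `5` inert): the square
of the crossing number with the genus character of `d` and the orientation at `3` is the product of
the constants of `d` and of `D / d` (lattice ramified at `3`). Verified numerically.
-/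

set_option autoImplicit false

namespace Pool.Agent.N969.RQ

open Finset
open Pool.Agent.Z700 (hh fac)
open Pool.Agent.N969.P15 (V3 tw)
open Pool.Agent.N973.P15G (Aii P)

noncomputable section

/-- the number of pairs of the lattice ramified at `3` with inner product `b` which are proportional
modulo `5` -/
def cp5 (n1 b n2 : ℤ) : ℕ := ((N877.P21.vec n1 ×ˢ N877.P21.vec n2).filter fun q =>
  N877.P21.ip q.1 q.2 = b ∧ ∀ i, (5 : ℤ) ∣ n2 * q.1 i - b * q.2 i).card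

/-- CP5: the pairs with a common isotropic line modulo `5` -/
def S_CP5 : Prop := ∀ (n1 n2 : ℕ) (b : ℤ) (D : ℕ), Squarefree n1 → n1 % 4 = 3 →
  (n1 % 5 = 1 ∨ n1 % 5 = 4) → (n2 % 5 = 1 ∨ n2 % 5 = 4) → ¬ 3 ∣ n1 → 0 < D → 5 ∣ D →
  (D : ℤ) = n1 * n2 - b ^ 2 →
  (N877.P21.cp n1 b n2 : ℤ) + cp5 n1 b n2 = 24 * (D.factorization 5 * lcr n1 D 3 5)

/-- BIL: the pairs of vectors of norms `d l`, `(D / d) l` of the lattice ramified at `3` with a
common line modulo `5` -/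
def S_BILJ15n : Prop := ∀ l : ℕ, Nat.Prime l → P15.Cls0 l → ∃ Z : ℕ → ℤ,
  (∀ D d : ℕ, R15 D → ¬ l ∣ D → Un D d → sgd D d = 1 → jacobiSym d 3 = -1 → jacobiSym d 5 = -1 →
    (ST 15 D l (fun t _ => o3 (t * l) * sj D d l t *
      ((N877.P21.cp (d * l : ℕ) t (D / d * l : ℕ) : ℤ) + cp5 (d * l : ℕ) t (D / d * l : ℕ))) =
        6 * (Z d * Z (D / d)) ∨
     ST 15 D l (fun t _ => o3 (t * l) * sj D d l t *
      ((N877.P21.cp (d * l : ℕ) t (D / d * l : ℕ) : ℤ) + cp5 (d * l : ℕ) t (D / d * l : ℕ))) =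
        -6 * (Z d * Z (D / d)))) ∧
  (∀ A : ℕ, ¬ l ∣ A → Aii A → P A (A * l) = Z A ^ 2)

/-- FAC: `κ`, `κ'` are the constants of the second block of `N973/P15G`:
`9 P A (A l) = -4 κ cc(l)²` (and `9 P A (A m) = -κ cc(m)²` for `15 ∣ m`) -/
def S_FAC15n : Prop := ∀ D d : ℕ, R15 D → Un D d → sgd D d = 1 → Aii d → Aii (D / d) → ∀ κ κ' : ℤ,
  (∀ l : ℕ, Nat.Prime l → P15.Cls0 l → ¬ l ∣ d → 9 * P d (d * l) = -4 * κ * P15.cc l ^ 2) →
  (∀ l : ℕ, Nat.Prime l → P15.Cls0 l → ¬ l ∣ D / d →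
    9 * P (D / d) (D / d * l) = -4 * κ' * P15.cc l ^ 2) →
  J 15 o3 D d 1 3 ^ 2 = κ * κ'

end

end Pool.Agent.N969.RQ
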