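import Mathlib
import Pool.Agent.N969.RQ.Defs3

/-!
# Project RQ, sixth part: correction of `BILJ15` and `FAC15`

The orientation `o5` at `5` is an odd function, not a character: `o5 (2 x 2) = - o5 2 * o5 2`.  So the
product of the orientations of two vectors of norms `d l`, `(D / d) l` is `o5 (t l ^ 3)` up to the
sign `s5 d (D / d)`, which is `-1` if and only if both norms are `4 l` modulo `5`.  The statements
`S_BILJ15` and `S_FAC15` of `Defs3` are false in this case; here are the correct ones.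
-/

set_option autoImplicit false

namespace Pool.Agent.N969.RQ

open Finset

noncomputable section

/-- the sign of the orientations at `5` -/
def s5 (a b : ℕ) : ℤ := if a % 5 = 4 ∧ b % 5 = 4 then -1 else 1

/-- BIL at level `15` -/
def S_BILJ15c : Prop := ∀ l : ℕ, Nat.Prime l → P15.Cls0 l → ∃ Z R : ℕ → ℤ,
  Z 1 = P15.cc l ∧ R 1 = P15.rr l ∧
  (∀ D d : ℕ, (R15 D ∨ R15r D) → ¬ l ∣ D → Un D d → sgd D d = 1 → jacobiSym d 5 = 1 →
    ST 5 D l (fun t _ => o5 (t * l ^ 3) * sj D d l t *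
      (P15.cp (d * l : ℕ) t (D / d * l : ℕ) : ℤ)) = s5 d (D / d) * (R d * R (D / d)) ∧
    (R15 D → jacobiSym d 3 = 1 → 3 * ST 15 D l (fun t _ => o5 (t * l ^ 3) * sj D d l t *
      ((P15.cp (d * l : ℕ) t (D / d * l : ℕ) : ℤ) +
        P15.cp3 (d * l : ℕ) t (D / d * l : ℕ))) =
          s5 d (D / d) * (3 * (R d * R (D / d)) + Z d * Z (D / d))) ∧
    (R15r D → (jacobiSym d 3 = 1 ∨ jacobiSym (D / d : ℕ) 3 = 1) →
      6 * ST 15 D l (fun t _ => o5 (t * l ^ 3) * sj D d l t *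
        (P15.cp (d * l : ℕ) t (D / d * l : ℕ) : ℤ)) =
        s5 d (D / d) * (3 * (R d * R (D / d)) + Z d * Z (D / d)))) ∧
  (∀ A : ℕ, ¬ l ∣ A →
    (R15 A → 144 * ∑ T ∈ (range (A * l)).filter (fun T => 5 ∣ T ∧ 3 ∣ A * l - T),
      sl A l T * ld15 (A * l) T = 3 * R A ^ 2 + Z A ^ 2) ∧
    (R15r A → 144 * ∑ T ∈ (range (A * l)).filter (fun T => 5 ∣ T ∧ ¬ 3 ∣ T),
      sl A l T * ld15r (A * l) T = 9 * R A ^ 2 - Z A ^ 2))

/-- FAC -/
def S_FAC15c : Prop := ∀ D d : ℕ, (R15 D ∨ R15r D) → Un D d → sgd D d = 1 → d ≠ 1 → d ≠ D →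
  jacobiSym d 5 = 1 → jacobiSym d 3 ≠ -1 → jacobiSym (D / d : ℕ) 3 ≠ -1 →
  J 15 o5 D d 1 3 = -4 * (s5 d (D / d) * (J 15 o5 d 1 1 3 * J 15 o5 (D / d) 1 1 3))

end

end Pool.Agent.N969.RQ
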